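import Pool.Agent.Q241.UM.RESd
import Pool.Agent.H305R2.MertensM

/-!
Project UM5 (helper97), job UM5-RES: the resonator.
-/

set_option autoImplicit false

namespace Pool.Agent.Q241.UM

open Finset Filter Topology
open Pool.Agent.Q97.UM (N2 cv prc S_RES)

/-- the primes in `(y, y ^ 2]` -/
def Py (y : ℕ) : Finset ℕ := (Icc 1 (y ^ 2)).filter (fun p => p.Prime ∧ y < p)

theorem sum_Py (y : ℕ) (hy : 1 ≤ y) : ∑ p ∈ Py y, (1 : ℝ) / p =
    ∑ p ∈ (Icc 1 (y ^ 2)).filter Nat.Prime, (1 : ℝ) / p - ∑ p ∈ (Icc 1 y).filter Nat.Prime, (1 : ℝ) / p := by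
  have h1 : (Icc 1 (y ^ 2)).filter Nat.Prime = Py y ∪ (Icc 1 y).filter Nat.Prime := by
    ext p
    simp only [Py, mem_filter, mem_union, mem_Icc]
    have h2 : y ≤ y ^ 2 := Nat.le_self_pow (by norm_num) y
    constructor
    · rintro ⟨⟨h3, h4⟩, h5⟩
      rcases lt_or_ge y p with h6 | h6
      · exact Or.inl ⟨⟨h3, h4⟩, h5, h6⟩
      · exact Or.inr ⟨⟨h3, h6⟩, h5⟩
    · rintro (⟨⟨h3, h4⟩, h5, h6⟩ | ⟨⟨h3, h4⟩, h5⟩)
      · exact ⟨⟨h3, h4⟩, h5⟩
      · exact ⟨⟨h3, h4.trans h2⟩, h5⟩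
  have h2 : Disjoint (Py y) ((Icc 1 y).filter Nat.Prime) := by
    rw [Finset.disjoint_left]
    intro p hp hp'
    simp only [Py, mem_filter, mem_Icc] at hp hp'
    omega
  rw [h1, Finset.sum_union h2]
  ring

/-- Mertens: the sum over `(y, y ^ 2]` tends to `log 2` -/
theorem ev_Py : ∀ᶠ y : ℕ in atTop, (1 / 2 : ℝ) ≤ ∑ p ∈ Py y, (1 : ℝ) / p ∧ ∑ p ∈ Py y, (1 : ℝ) / p ≤ 1 := by
  obtain ⟨M, hM⟩ := Pool.Agent.H305R2.mertens_inv_tendsto
  have h1 : Tendsto (fun y : ℕ => y ^ 2) atTop atTop := tendsto_pow_atTop (by norm_num)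
  have h2 := hM.comp h1
  have h3 := h2.sub hM
  rw [sub_self] at h3
  have h4 : ∀ᶠ y : ℕ in atTop, |((∑ p ∈ (Icc 1 (y ^ 2)).filter Nat.Prime, (1 : ℝ) / p -
      Real.log (Real.log ((y ^ 2 : ℕ) : ℝ))) - (∑ p ∈ (Icc 1 y).filter Nat.Prime, (1 : ℝ) / p -
      Real.log (Real.log (y : ℝ))))| < 1 / 10 := by
    have h5 := h3.eventually (Metric.ball_mem_nhds (0 : ℝ) (by norm_num : (0 : ℝ) < 1 / 10))
    filter_upwards [h5] with y hy
    rw [Real.dist_eq, sub_zero] at hy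
    exact hy
  filter_upwards [h4, eventually_ge_atTop 3] with y hy hy3
  have hy3' : (3 : ℝ) ≤ y := by exact_mod_cast hy3
  have hl : 0 < Real.log y := Real.log_pos (by linarith)
  have h6 : Real.log (Real.log ((y ^ 2 : ℕ) : ℝ)) = Real.log 2 + Real.log (Real.log (y : ℝ)) := by
    push_cast
    rw [Real.log_pow]
    push_cast
    rw [Real.log_mul (by norm_num) hl.ne']
  rw [h6] at hy
  rw [sum_Py y (by omega)]
  have h7 := Real.log_two_gt_d9
  have h8 := Real.log_two_lt_d9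
  rw [abs_lt] at hy
  constructor <;> linarith [hy.1, hy.2]

/-- the sum over all primes up to `X` -/
theorem ev_sum : ∃ C : ℝ, 0 ≤ C ∧ ∀ᶠ X : ℕ in atTop,
    ∑ p ∈ (Icc 1 X).filter Nat.Prime, (1 : ℝ) / p ≤ C + Real.log (Real.log X) := by
  obtain ⟨M, hM⟩ := Pool.Agent.H305R2.mertens_inv_tendsto
  refine ⟨|M| + 1, by positivity, ?_⟩
  have h5 := hM.eventually (Metric.ball_mem_nhds M (by norm_num : (0 : ℝ) < 1))
  filter_upwards [h5] with X hX
  rw [Real.dist_eq, abs_lt] at hX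
  linarith [hX.2, le_abs_self M]

theorem ev_main (θ : ℝ) (hθ : 0 < θ) (hθ1 : θ ≤ 1) : ∃ c C : ℝ, 0 < c ∧ 0 ≤ C ∧ ∀ᶠ L : ℝ in atTop,
    ∀ σ : ℝ, σ = 1 ∨ σ = -1 → ∃ (N : ℕ) (r : ℕ → ℂ) (a : ℝ), (N : ℝ) ≤ Real.exp (θ * L) ∧
      (∀ n, r n ≠ 0 → 1 ≤ n ∧ n ≤ N) ∧ 1 ≤ N2 N r ∧ c * Real.sqrt (L / Real.log L) ≤ a ∧
      ∀ X : ℕ, L ^ 4 ≤ X → (X : ℝ) ≤ Real.exp L →
        N2 (X * N) (fun n => cv (prc X) r n - σ * a * r n) ≤ C * Real.log L * N2 N r := by
  obtain ⟨C₁, hC₁, hsum⟩ := ev_sum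
  refine ⟨Real.sqrt (θ / 80) / 2, 12 + 2 * C₁, by positivity, by positivity, ?_⟩
  obtain ⟨X₀, hX₀⟩ := Filter.eventually_atTop.1 hsum
  have hfl : Tendsto (fun L : ℝ => ⌊L ^ 2⌋₊) atTop atTop :=
    tendsto_nat_floor_atTop.comp (tendsto_pow_atTop (by norm_num))
  have hlogo : ∀ᶠ L : ℝ in atTop, Real.log L ≤ θ / 80 * L := by
    have h1 := Real.isLittleO_log_id_atTop.bound (c := θ / 80) (by positivity)
    filter_upwards [h1, eventually_ge_atTop 1] with L hL hL1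
    rw [Real.norm_eq_abs, id, Real.norm_eq_abs, abs_of_nonneg (by linarith : (0 : ℝ) ≤ L)] at hL
    exact (le_abs_self _).trans hL
  filter_upwards [hfl.eventually ev_Py, hlogo, eventually_ge_atTop (Real.exp 1), eventually_ge_atTop 3,
    eventually_ge_atTop (X₀ : ℝ)] with L hPy hlo hLe hL3 hLX₀
  obtain ⟨hS1, hS2⟩ := hPy
  have hL0 : 0 < L := by linarith
  have hlog1 : 1 ≤ Real.log L := by
    rw [← Real.log_exp 1]
    exact Real.log_le_log (Real.exp_pos 1) hLe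
  have hlog0 : 0 < Real.log L := by linarith
  set y := ⌊L ^ 2⌋₊ with hy
  have hyL : (y : ℝ) ≤ L ^ 2 := Nat.floor_le (by positivity)
  have hyL' : L ^ 2 < y + 1 := Nat.lt_floor_add_one _
  have hy1 : 1 ≤ y := by
    rw [hy, Nat.one_le_floor_iff]
    nlinarith
  -- the number of prime factors
  set z := θ * L / (4 * Real.log L) with hz
  have hz20 : 20 ≤ z := by
    rw [hz, le_div_iff₀ (by positivity)]
    have := hlo
    nlinarith
  set K := ⌊z⌋₊ with hK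
  have hKz : (K : ℝ) ≤ z := Nat.floor_le (by linarith)
  have hKz' : z < K + 1 := Nat.lt_floor_add_one _
  have hK10 : (10 : ℝ) ≤ K := by linarith
  have hKz2 : z / 2 ≤ K := by linarith
  set μ := Real.sqrt (K / 10) with hμ
  have hμ2 : μ ^ 2 = K / 10 := Real.sq_sqrt (by positivity)
  have hμ0 : 0 ≤ μ := Real.sqrt_nonneg _
  have hμ1 : 1 ≤ μ := by
    rw [hμ, Real.one_le_sqrt]
    linarith
  have hKL : (K : ℝ) ≤ L := by
    refine hKz.trans ?_
    rw [hz, div_le_iff₀ (by positivity)]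
    nlinarith [mul_le_mul_of_nonneg_right hθ1 hL0.le]
  set P := Py y with hPdef
  have hP : ∀ p ∈ P, p.Prime := fun p hp => (mem_filter.1 hp).2.1
  have hPle : ∀ p ∈ P, p ≤ y ^ 2 := fun p hp => (mem_Icc.1 (mem_filter.1 hp).1).2
  have hPgt : ∀ p ∈ P, y < p := fun p hp => (mem_filter.1 hp).2.2
  set a := μ * ∑ p ∈ P, (1 : ℝ) / p with ha
  have hx : ∀ p ∈ P, μ ^ 4 ≤ (p : ℝ) := by
    intro p hp
    have h1 : μ ^ 4 = (K / 10 : ℝ) ^ 2 := by rw [← hμ2]; ring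
    rw [h1]
    have h2 : (y : ℝ) + 1 ≤ p := by exact_mod_cast hPgt p hp
    nlinarith [hKL, hK10]
  have hN : ∀ S ∈ P.powerset, S.card ≤ K → ∏ p ∈ S, p ≤ (y ^ 2) ^ K := by
    intro S hS hc
    have hSP := Finset.mem_powerset.1 hS
    calc ∏ p ∈ S, p ≤ (y ^ 2) ^ S.card := Finset.prod_le_pow_card _ _ _ fun p hp => hPle p (hSP hp)
      _ ≤ (y ^ 2) ^ K := Nat.pow_le_pow_right (by positivity) hc
  have hNN : 1 ≤ (y ^ 2) ^ K := Nat.one_le_pow _ _ (by positivity)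
  intro σ hσ
  refine ⟨(y ^ 2) ^ K, rs P K (σ * μ), a, ?_, ?_, one_le_N2 hNN, ?_, ?_⟩
  · -- the length
    push_cast
    have h1 : ((y : ℝ) ^ 2) ^ K ≤ (L ^ 4) ^ K := by
      refine pow_le_pow_left₀ (by positivity) ?_ K
      calc (y : ℝ) ^ 2 ≤ (L ^ 2) ^ 2 := pow_le_pow_left₀ (Nat.cast_nonneg _) hyL 2
        _ = L ^ 4 := by ring
    refine h1.trans ?_
    have h2 : (L ^ 4) ^ K = Real.exp ((4 * K : ℝ) * Real.log L) := by
      rw [← pow_mul, ← Real.rpow_natCast, Real.rpow_def_of_pos hL0]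
      congr 1
      push_cast
      ring
    rw [h2]
    refine Real.exp_le_exp.2 ?_
    have h3 : (4 * Real.log L) * K ≤ (4 * Real.log L) * z := mul_le_mul_of_nonneg_left hKz (by positivity)
    have h4 : (4 * Real.log L) * z = θ * L := by
      rw [hz]
      field_simp
    linarith
  · intro n hn
    obtain ⟨⟨h3, h4⟩, h5⟩ := rs_ne hn
    have h6 := hN n.primeFactors (Finset.mem_powerset.2 h4) h5
    rw [Nat.prod_primeFactors_of_squarefree h3] at h6
    exact ⟨Nat.one_le_iff_ne_zero.2 h3.ne_zero, h6⟩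
  · -- the size of `a`
    have h1 : Real.sqrt (θ / 80) * Real.sqrt (L / Real.log L) ≤ μ := by
      rw [← Real.sqrt_mul (by positivity), hμ]
      refine Real.sqrt_le_sqrt ?_
      have h2 : θ / 80 * (L / Real.log L) = z / 20 := by
        rw [hz]
        field_simp
        norm_num
      rw [h2]
      linarith
    rw [ha]
    have h3 : 0 ≤ Real.sqrt (θ / 80) * Real.sqrt (L / Real.log L) := by positivity
    nlinarith
  · intro X hX1 hX2
    have hy2 : y ^ 2 ≤ X := by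
      have h1 : ((y ^ 2 : ℕ) : ℝ) ≤ X := by
        push_cast
        calc (y : ℝ) ^ 2 ≤ (L ^ 2) ^ 2 := pow_le_pow_left₀ (Nat.cast_nonneg _) hyL 2
          _ = L ^ 4 := by ring
          _ ≤ X := hX1
      exact_mod_cast h1
    have h1 := res_core hP (K := K) (N := (y ^ 2) ^ K) (X := X) hσ hμ1 hS2 ha (by rw [hμ2]; linarith) hx hN
      (fun p hp => (hPle p hp).trans hy2)
    refine h1.trans ?_
    have hW : 0 ≤ N2 ((y ^ 2) ^ K) (rs P K (σ * μ)) := zero_le_one.trans (one_le_N2 hNN)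
    refine mul_le_mul_of_nonneg_right ?_ hW
    have hXL : L ≤ X := by
      have : L ≤ L ^ 4 := by
        nlinarith [mul_pos hL0 hL0, mul_pos (mul_pos hL0 hL0) hL0, sq_nonneg (L ^ 2), pow_le_pow_right₀ (by linarith : (1:ℝ) ≤ L) (by norm_num : 1 ≤ 4)]
      linarith
    have hXX₀ : X₀ ≤ X := by
      have : (X₀ : ℝ) ≤ X := by linarith
      exact_mod_cast this
    have h2 := hX₀ X hXX₀
    have hX1' : (1 : ℝ) < X := by linarith
    have h3 : Real.log (Real.log X) ≤ Real.log L := by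
      refine Real.log_le_log (Real.log_pos hX1') ?_
      have h4 := Real.log_le_log (by linarith) hX2
      rwa [Real.log_exp] at h4
    nlinarith

theorem t_RES : S_RES := by
  intro θ hθ hθ1
  obtain ⟨c, C, hc, hC, hev⟩ := ev_main θ hθ hθ1
  refine ⟨c, C, hc, hC, ?_⟩
  filter_upwards [Real.tendsto_log_atTop.eventually hev, eventually_gt_atTop 0] with T hT hT0
  have h1 : Real.exp (θ * Real.log T) = T ^ θ := by
    rw [Real.rpow_def_of_pos hT0, mul_comm]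
  have h2 : Real.exp (Real.log T) = T := Real.exp_log hT0
  rw [h1, h2] at hT
  exact hT

end Pool.Agent.Q241.UM
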