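import Mathlib

/-!
Project UM5 (helper97), job UM5-RES: sums over the subsets of a finite set with product weights.
-/

set_option autoImplicit false

namespace Pool.Agent.Q241.UM

open Finset

/-- the weight of a subset -/
noncomputable def wt (x : ℕ → ℝ) (S : Finset ℕ) : ℝ := ∏ p ∈ S, x p

theorem wt_insert {x : ℕ → ℝ} {a : ℕ} {S : Finset ℕ} (h : a ∉ S) : wt x (insert a S) = x a * wt x S :=
  Finset.prod_insert h

theorem wt_nonneg {x : ℕ → ℝ} (hx : ∀ p, 0 ≤ x p) (S : Finset ℕ) : 0 ≤ wt x S :=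
  Finset.prod_nonneg fun p _ => hx p

theorem sum_ins {M : Type*} [AddCommMonoid M] {a : ℕ} {P : Finset ℕ} (h : a ∉ P) (f : Finset ℕ → M) :
    ∑ S ∈ (insert a P).powerset, f S = ∑ S ∈ P.powerset, f S + ∑ S ∈ P.powerset, f (insert a S) :=
  Finset.sum_powerset_insert h f

/-- the total mass -/
noncomputable def E0 (x : ℕ → ℝ) (P : Finset ℕ) : ℝ := ∑ S ∈ P.powerset, wt x S

/-- the centred first moment -/
noncomputable def E1 (x : ℕ → ℝ) (P : Finset ℕ) : ℝ :=
  ∑ S ∈ P.powerset, ((S.card : ℝ) - ∑ p ∈ P, x p) * wt x S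

/-- the centred second moment -/
noncomputable def E2 (x : ℕ → ℝ) (P : Finset ℕ) : ℝ :=
  ∑ S ∈ P.powerset, ((S.card : ℝ) - ∑ p ∈ P, x p) ^ 2 * wt x S

theorem not_mem_of_powerset {a : ℕ} {P S : Finset ℕ} (h : a ∉ P) (hS : S ∈ P.powerset) : a ∉ S :=
  fun h1 => h (Finset.mem_powerset.1 hS h1)

theorem E0_ins {x : ℕ → ℝ} {a : ℕ} {P : Finset ℕ} (h : a ∉ P) : E0 x (insert a P) = (1 + x a) * E0 x P := by
  unfold E0
  rw [sum_ins h, add_mul, one_mul, mul_sum]
  congr 1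
  exact sum_congr rfl fun S hS => wt_insert (not_mem_of_powerset h hS)

theorem E1_ins {x : ℕ → ℝ} {a : ℕ} {P : Finset ℕ} (h : a ∉ P) :
    E1 x (insert a P) = (1 + x a) * E1 x P - x a ^ 2 * E0 x P := by
  unfold E1 E0
  rw [sum_ins h, mul_sum, mul_sum, ← sum_sub_distrib, ← sum_add_distrib]
  refine sum_congr rfl fun S hS => ?_
  rw [wt_insert (not_mem_of_powerset h hS), Finset.card_insert_of_notMem (not_mem_of_powerset h hS),
    Finset.sum_insert h]
  push_cast
  ring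

theorem E2_ins {x : ℕ → ℝ} {a : ℕ} {P : Finset ℕ} (h : a ∉ P) :
    E2 x (insert a P) = (1 + x a) * E2 x P - 2 * x a ^ 2 * E1 x P + (x a - x a ^ 2 + x a ^ 3) * E0 x P := by
  unfold E2 E1 E0
  rw [sum_ins h, mul_sum, mul_sum, mul_sum, ← sum_sub_distrib, ← sum_add_distrib, ← sum_add_distrib]
  refine sum_congr rfl fun S hS => ?_
  rw [wt_insert (not_mem_of_powerset h hS), Finset.card_insert_of_notMem (not_mem_of_powerset h hS),
    Finset.sum_insert h]
  push_cast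
  ring

theorem E0_pos {x : ℕ → ℝ} (hx : ∀ p, 0 ≤ x p) (P : Finset ℕ) : 0 < E0 x P := by
  induction P using Finset.induction_on with
  | empty => simp [E0, wt]
  | insert a P h ih =>
    rw [E0_ins h]
    have := hx a
    positivity

theorem E1_nonpos {x : ℕ → ℝ} (hx : ∀ p, 0 ≤ x p) (P : Finset ℕ) : E1 x P ≤ 0 := by
  induction P using Finset.induction_on with
  | empty => simp [E1, wt]
  | insert a P h ih =>
    rw [E1_ins h]
    have h1 := hx a
    have h2 := E0_pos hx P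
    nlinarith [mul_nonneg h1 (neg_nonneg.2 ih), mul_nonneg (sq_nonneg (x a)) h2.le]

theorem E1_ge {x : ℕ → ℝ} (hx : ∀ p, 0 ≤ x p) (P : Finset ℕ) :
    -((∑ p ∈ P, x p ^ 2) * E0 x P) ≤ E1 x P := by
  induction P using Finset.induction_on with
  | empty => simp [E1, wt]
  | insert a P h ih =>
    rw [E1_ins h, E0_ins h, Finset.sum_insert h]
    have h1 := hx a
    have h2 := E0_pos hx P
    have h3 : 0 ≤ ∑ p ∈ P, x p ^ 2 := Finset.sum_nonneg fun p _ => sq_nonneg _
    have h4 : 0 ≤ (1 + x a) * (E1 x P + (∑ p ∈ P, x p ^ 2) * E0 x P) :=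
      mul_nonneg (by linarith) (by linarith)
    have h5 : 0 ≤ x a * (x a ^ 2 * E0 x P) := mul_nonneg h1 (mul_nonneg (sq_nonneg _) h2.le)
    nlinarith

theorem E2_le {x : ℕ → ℝ} (hx : ∀ p, 0 ≤ x p) (P : Finset ℕ) (hx1 : ∀ p ∈ P, x p ≤ 1) :
    E2 x P ≤ (∑ p ∈ P, x p + (∑ p ∈ P, x p ^ 2) ^ 2) * E0 x P := by
  induction P using Finset.induction_on with
  | empty => simp [E2, wt]
  | insert a P h ih =>
    rw [E2_ins h, E0_ins h, Finset.sum_insert h, Finset.sum_insert h]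
    have h0 := ih fun p hp => hx1 p (Finset.mem_insert_of_mem hp)
    have ha1 := hx1 a (Finset.mem_insert_self a P)
    have h1 := hx a
    have h2 := E0_pos hx P
    have h3 : 0 ≤ ∑ p ∈ P, x p ^ 2 := Finset.sum_nonneg fun p _ => sq_nonneg _
    have h3' : 0 ≤ ∑ p ∈ P, x p := Finset.sum_nonneg fun p _ => hx p
    have h4 := E1_ge hx P
    generalize (∑ p ∈ P, x p) = m at *
    generalize (∑ p ∈ P, x p ^ 2) = Q at *
    generalize E0 x P = A at *
    generalize E1 x P = B at *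
    generalize E2 x P = D at *
    generalize x a = y at *
    have e1 : (1 + y) * D ≤ (1 + y) * ((m + Q ^ 2) * A) := mul_le_mul_of_nonneg_left h0 (by linarith)
    have e2 : -(2 * y ^ 2 * B) ≤ 2 * y ^ 2 * (Q * A) := by nlinarith [mul_nonneg (sq_nonneg y) (by linarith : 0 ≤ B + Q * A)]
    have e3 : (y - y ^ 2 + y ^ 3) * A ≤ y * (1 + y) * A := by
      refine mul_le_mul_of_nonneg_right ?_ h2.le
      nlinarith [mul_nonneg (mul_nonneg h1 h1) (sub_nonneg.2 ha1), mul_nonneg h1 h1]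
    have e4 : (y + m + (y ^ 2 + Q) ^ 2) * ((1 + y) * A) =
        (1 + y) * ((m + Q ^ 2) * A) + y * (1 + y) * A + 2 * y ^ 2 * (Q * A) +
          (y ^ 4 * (1 + y) * A + 2 * y ^ 3 * Q * A) := by ring
    have e5 : 0 ≤ y ^ 4 * (1 + y) * A + 2 * y ^ 3 * Q * A := by positivity
    linarith

/-- the first moment -/
theorem card_sum_le {x : ℕ → ℝ} (hx : ∀ p, 0 ≤ x p) (P : Finset ℕ) :
    ∑ S ∈ P.powerset, (S.card : ℝ) * wt x S ≤ (∑ p ∈ P, x p) * E0 x P := by
  have h := E1_nonpos hx P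
  unfold E1 at h
  simp only [sub_mul] at h
  rw [sum_sub_distrib, ← mul_sum] at h
  unfold E0
  linarith

/-- the subsets with at most `K` elements carry most of the mass -/
theorem trunc {x : ℕ → ℝ} (hx : ∀ p, 0 ≤ x p) (P : Finset ℕ) (K : ℕ) (hK : 10 * ∑ p ∈ P, x p ≤ K) (hK0 : 1 ≤ K) :
    9 * E0 x P ≤ 10 * ∑ S ∈ P.powerset.filter (fun S => S.card ≤ K), wt x S := by
  have h1 := card_sum_le hx P
  have h0 := E0_pos hx P
  have h2 : E0 x P = ∑ S ∈ P.powerset.filter (fun S => S.card ≤ K), wt x S +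
      ∑ S ∈ P.powerset.filter (fun S => ¬ S.card ≤ K), wt x S :=
    (Finset.sum_filter_add_sum_filter_not _ _ _).symm
  have h3 : (K : ℝ) * ∑ S ∈ P.powerset.filter (fun S => ¬ S.card ≤ K), wt x S ≤
      ∑ S ∈ P.powerset, (S.card : ℝ) * wt x S := by
    rw [mul_sum]
    refine (Finset.sum_le_sum (g := fun S : Finset ℕ => (S.card : ℝ) * wt x S) fun S hS => ?_).trans
      (Finset.sum_le_sum_of_subset_of_nonneg (Finset.filter_subset _ _) fun S _ _ =>
        mul_nonneg (Nat.cast_nonneg _) (wt_nonneg hx S))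
    have h4 := (Finset.mem_filter.1 hS).2
    refine mul_le_mul_of_nonneg_right ?_ (wt_nonneg hx S)
    exact_mod_cast (not_le.1 h4).le
  have hK0' : (0 : ℝ) < K := by exact_mod_cast hK0
  have h5 : (K : ℝ) * (10 * ∑ S ∈ P.powerset.filter (fun S => ¬ S.card ≤ K), wt x S) ≤ K * E0 x P := by
    calc (K : ℝ) * (10 * ∑ S ∈ P.powerset.filter (fun S => ¬ S.card ≤ K), wt x S)
        = 10 * (K * ∑ S ∈ P.powerset.filter (fun S => ¬ S.card ≤ K), wt x S) := by ring
      _ ≤ 10 * ((∑ p ∈ P, x p) * E0 x P) := by linarith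
      _ = (10 * ∑ p ∈ P, x p) * E0 x P := by ring
      _ ≤ K * E0 x P := mul_le_mul_of_nonneg_right hK h0.le
  have h6 := le_of_mul_le_mul_left h5 hK0'
  linarith

end Pool.Agent.Q241.UM
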