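import Pool.Agent.Q97.UM.Stm12
import Pool.Agent.Q241.UM.RESa

/-!
Project UM5 (helper97), job UM5-RES: the resonator, finite part.
-/

set_option autoImplicit false

namespace Pool.Agent.Q241.UM

open Finset
open Pool.Agent.Q97.UM (N2 cv prc)

/-- squarefree numbers composed of the primes in `P` -/
def Sq (P : Finset ℕ) (n : ℕ) : Prop := Squarefree n ∧ n.primeFactors ⊆ P

/-- number of prime factors -/
def om (n : ℕ) : ℕ := n.primeFactors.card

open Classical in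
/-- the resonator -/
noncomputable def rs (P : Finset ℕ) (K : ℕ) (s : ℝ) (n : ℕ) : ℂ :=
  if Sq P n ∧ om n ≤ K then ((s ^ om n : ℝ) : ℂ) else 0

theorem rs_ne {P : Finset ℕ} {K : ℕ} {s : ℝ} {n : ℕ} (h : rs P K s n ≠ 0) : Sq P n ∧ om n ≤ K := by
  by_contra h1
  exact h (if_neg h1)

/-- transfer of a sum over integers to a sum over the subsets -/
theorem transfer_le {P : Finset ℕ} (hP : ∀ p ∈ P, p.Prime) (M : ℕ) (g : ℕ → ℝ)
    (h : ∀ n, g n ≠ 0 → Sq P n) (h0 : ∀ n, 0 ≤ g n) :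
    ∑ n ∈ Icc 1 M, g n ≤ ∑ S ∈ P.powerset, g (∏ p ∈ S, p) := by
  have hinj : Set.InjOn (fun S : Finset ℕ => ∏ p ∈ S, p) (P.powerset : Set (Finset ℕ)) := by
    intro S hS S' hS' he
    have h1 := Nat.primeFactors_prod (s := S) fun p hp => hP p (Finset.mem_powerset.1 (by exact_mod_cast hS) hp)
    have h2 := Nat.primeFactors_prod (s := S') fun p hp => hP p (Finset.mem_powerset.1 (by exact_mod_cast hS') hp)
    rw [← h1, ← h2]
    exact congrArg Nat.primeFactors he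
  rw [← Finset.sum_image (f := g) (g := fun S : Finset ℕ => ∏ p ∈ S, p) hinj]
  have h3 : ∑ n ∈ Icc 1 M, g n = ∑ n ∈ (Icc 1 M).filter (fun n => g n ≠ 0), g n := by
    rw [Finset.sum_filter_ne_zero]
  rw [h3]
  refine Finset.sum_le_sum_of_subset_of_nonneg ?_ fun n _ _ => h0 n
  intro n hn
  rw [Finset.mem_filter] at hn
  obtain ⟨h4, h5⟩ := h n hn.2
  rw [Finset.mem_image]
  exact ⟨n.primeFactors, Finset.mem_powerset.2 h5, Nat.prod_primeFactors_of_squarefree h4⟩

theorem transfer_ge {P : Finset ℕ} (hP : ∀ p ∈ P, p.Prime) (M : ℕ) (g : ℕ → ℝ)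
    (h : ∀ n, g n ≠ 0 → n ≤ M) (h0 : ∀ n, 0 ≤ g n) :
    ∑ S ∈ P.powerset, g (∏ p ∈ S, p) ≤ ∑ n ∈ Icc 1 M, g n := by
  have hinj : Set.InjOn (fun S : Finset ℕ => ∏ p ∈ S, p) (P.powerset : Set (Finset ℕ)) := by
    intro S hS S' hS' he
    have h1 := Nat.primeFactors_prod (s := S) fun p hp => hP p (Finset.mem_powerset.1 (by exact_mod_cast hS) hp)
    have h2 := Nat.primeFactors_prod (s := S') fun p hp => hP p (Finset.mem_powerset.1 (by exact_mod_cast hS') hp)
    rw [← h1, ← h2]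
    exact congrArg Nat.primeFactors he
  rw [← Finset.sum_image (f := g) (g := fun S : Finset ℕ => ∏ p ∈ S, p) hinj]
  rw [← Finset.sum_filter_ne_zero]
  refine Finset.sum_le_sum_of_subset_of_nonneg ?_ fun n _ _ => h0 n
  intro n hn
  rw [Finset.mem_filter, Finset.mem_image] at hn
  obtain ⟨⟨S, hS, rfl⟩, h2⟩ := hn
  rw [Finset.mem_Icc]
  refine ⟨?_, h _ h2⟩
  exact Nat.one_le_iff_ne_zero.2 (Finset.prod_ne_zero_iff.2 fun p hp =>
    (hP p (Finset.mem_powerset.1 hS hp)).ne_zero)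

theorem om_prod {P S : Finset ℕ} (hP : ∀ p ∈ P, p.Prime) (hS : S ∈ P.powerset) :
    om (∏ p ∈ S, p) = S.card := by
  unfold om
  rw [Nat.primeFactors_prod fun p hp => hP p (Finset.mem_powerset.1 hS hp)]

theorem sqf_prod {S : Finset ℕ} (hP : ∀ p ∈ S, p.Prime) : Squarefree (∏ p ∈ S, p) := by
  induction S using Finset.induction_on with
  | empty => simp
  | insert a S h ih =>
    rw [Finset.prod_insert h]
    have hS : ∀ p ∈ S, p.Prime := fun p hp => hP p (Finset.mem_insert_of_mem hp)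
    have ha := hP a (Finset.mem_insert_self a S)
    rw [Nat.squarefree_mul]
    · exact ⟨ha.squarefree, ih hS⟩
    · refine Nat.Coprime.prod_right fun q hq => ?_
      exact (Nat.coprime_primes ha (hS q hq)).2 fun h1 => h (h1 ▸ hq)

theorem Sq_prod {P S : Finset ℕ} (hP : ∀ p ∈ P, p.Prime) (hS : S ∈ P.powerset) :
    Sq P (∏ p ∈ S, p) := by
  refine ⟨?_, ?_⟩
  · exact sqf_prod fun p hp => hP p (Finset.mem_powerset.1 hS hp)
  · rw [Nat.primeFactors_prod fun p hp => hP p (Finset.mem_powerset.1 hS hp)]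
    exact Finset.mem_powerset.1 hS

/-- the weight of a subset, for `x p = μ² / p` -/
theorem wt_eq {S : Finset ℕ} (μ : ℝ) : wt (fun p => μ ^ 2 / p) S = μ ^ (2 * S.card) / ((∏ p ∈ S, p : ℕ) : ℝ) := by
  unfold wt
  rw [Finset.prod_div_distrib, Finset.prod_const, ← pow_mul]
  push_cast
  rfl

/-- the mean square of the resonator -/
theorem N2_rs {P : Finset ℕ} (hP : ∀ p ∈ P, p.Prime) (K N : ℕ) (s : ℝ)
    (hN : ∀ S ∈ P.powerset, S.card ≤ K → ∏ p ∈ S, p ≤ N) :
    N2 N (rs P K s) = ∑ S ∈ P.powerset.filter (fun S => S.card ≤ K), wt (fun p => s ^ 2 / p) S := by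
  classical
  have h0 : ∀ n, 0 ≤ ‖rs P K s n‖ ^ 2 / (n : ℝ) := fun n => by positivity
  have h1 : ∀ n, ‖rs P K s n‖ ^ 2 / (n : ℝ) ≠ 0 → rs P K s n ≠ 0 := by
    intro n h h'
    apply h
    rw [h', norm_zero]
    simp
  have h2 : ∑ S ∈ P.powerset, ‖rs P K s (∏ p ∈ S, p)‖ ^ 2 / ((∏ p ∈ S, p : ℕ) : ℝ) =
      ∑ S ∈ P.powerset.filter (fun S => S.card ≤ K), wt (fun p => s ^ 2 / p) S := by
    rw [Finset.sum_filter]
    refine sum_congr rfl fun S hS => ?_
    by_cases hc : S.card ≤ K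
    · rw [if_pos hc, wt_eq]
      unfold rs
      rw [if_pos ⟨Sq_prod hP hS, by rw [om_prod hP hS]; exact hc⟩, om_prod hP hS, Complex.norm_real,
        Real.norm_eq_abs, ← abs_pow, ← pow_mul, mul_comm S.card 2, abs_of_nonneg (by
          rw [pow_mul]; positivity)]
    · rw [if_neg hc]
      unfold rs
      rw [if_neg (by rw [om_prod hP hS]; exact fun h => hc h.2), norm_zero]
      simp
  unfold N2
  refine le_antisymm ?_ ?_
  · rw [← h2]
    exact transfer_le hP N _ (fun n h => (rs_ne (h1 n h)).1) h0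
  · rw [← h2]
    refine transfer_ge hP N (fun n => ‖rs P K s n‖ ^ 2 / (n : ℝ)) (fun n h => ?_) h0
    obtain ⟨⟨h3, h4⟩, h5⟩ := rs_ne (h1 n h)
    have h6 := hN n.primeFactors (Finset.mem_powerset.2 h4) h5
    rwa [Nat.prod_primeFactors_of_squarefree h3] at h6

end Pool.Agent.Q241.UM
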