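import Pool.Agent.Q241.UM.RESb

/-!
Project UM5 (helper97), job UM5-RES: convolution of the resonator with the primes.
-/

set_option autoImplicit false

namespace Pool.Agent.Q241.UM

open Finset
open Pool.Agent.Q97.UM (N2 cv prc)

theorem prc_ne {X n : ℕ} (h : prc X n ≠ 0) : n.Prime ∧ n ≤ X := by
  unfold prc at h
  by_contra h1
  exact h (if_neg h1)

theorem prc_norm (X n : ℕ) : ‖prc X n‖ ^ 2 = if n.Prime ∧ n ≤ X then 1 else 0 := by
  unfold prc
  split <;> simp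

open Classical in
/-- the main part of the convolution -/
noncomputable def f1 (P : Finset ℕ) (X : ℕ) (r : ℕ → ℂ) (n : ℕ) : ℂ :=
  ∑ x ∈ n.divisorsAntidiagonal.filter (fun x => x.1 ∈ P ∧ ¬ x.1 ∣ x.2), prc X x.1 * r x.2

open Classical in
/-- the other part -/
noncomputable def f2 (P : Finset ℕ) (X : ℕ) (r : ℕ → ℂ) (n : ℕ) : ℂ :=
  ∑ x ∈ n.divisorsAntidiagonal.filter (fun x => ¬ (x.1 ∈ P ∧ ¬ x.1 ∣ x.2)), prc X x.1 * r x.2

theorem cv_split (P : Finset ℕ) (X : ℕ) (r : ℕ → ℂ) (n : ℕ) :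
    cv (prc X) r n = f1 P X r n + f2 P X r n := by
  classical
  unfold cv f1 f2
  exact (Finset.sum_filter_add_sum_filter_not _ _ _).symm

theorem Sq.dvd_mem {P : Finset ℕ} {m q : ℕ} (h : Sq P m) (hq : q.Prime) (hd : q ∣ m) : q ∈ P :=
  h.2 (Nat.mem_primeFactors.2 ⟨hq, hd, h.1.ne_zero⟩)

/-- at most one term of the other part is not zero -/
theorem uniq2 {P : Finset ℕ} {d m d' m' : ℕ} (hd : d.Prime) (hd' : d'.Prime) (hm : Sq P m)
    (hm' : Sq P m') (he : d * m = d' * m') (h : ¬ (d ∈ P ∧ ¬ d ∣ m)) : d = d' := by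
  by_contra hne
  have hco : Nat.Coprime d d' := (Nat.coprime_primes hd hd').2 hne
  have h1 : d ∣ m' := by
    have : d ∣ d' * m' := ⟨m, he.symm⟩
    exact hco.dvd_of_dvd_mul_left this
  have h2 : d ∈ P := hm'.dvd_mem hd h1
  have h3 : d ∣ m := by
    by_contra h4
    exact h ⟨h2, h4⟩
  have h5 : d * d ∣ d' * m' := by
    rw [← he]
    exact Nat.mul_dvd_mul_left d h3
  have h6 : Nat.Coprime (d * d) d' := hco.mul_left hco
  have h7 : d * d ∣ m' := h6.dvd_of_dvd_mul_left h5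
  have h8 := hm'.1 d h7
  exact hd.not_isUnit h8

theorem f2_sq {P : Finset ℕ} {K X : ℕ} {s : ℝ} (n : ℕ) :
    ‖f2 P X (rs P K s) n‖ ^ 2 ≤ ∑ x ∈ n.divisorsAntidiagonal, ‖prc X x.1‖ ^ 2 * ‖rs P K s x.2‖ ^ 2 := by
  classical
  unfold f2
  set A := n.divisorsAntidiagonal.filter (fun x => ¬ (x.1 ∈ P ∧ ¬ x.1 ∣ x.2)) with hA
  have h0 : ∑ x ∈ A, prc X x.1 * rs P K s x.2 =
      ∑ x ∈ A.filter (fun x => prc X x.1 * rs P K s x.2 ≠ 0), prc X x.1 * rs P K s x.2 :=
    (Finset.sum_filter_ne_zero _).symm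
  have hcard : (A.filter (fun x => prc X x.1 * rs P K s x.2 ≠ 0)).card ≤ 1 := by
    rw [Finset.card_le_one]
    intro x hx y hy
    rw [Finset.mem_filter, hA, Finset.mem_filter, Nat.mem_divisorsAntidiagonal] at hx hy
    obtain ⟨⟨⟨hx1, hn0⟩, hx2⟩, hx3⟩ := hx
    obtain ⟨⟨⟨hy1, -⟩, hy2⟩, hy3⟩ := hy
    have hpx := (prc_ne (left_ne_zero_of_mul hx3)).1
    have hpy := (prc_ne (left_ne_zero_of_mul hy3)).1
    have hrx := (rs_ne (right_ne_zero_of_mul hx3)).1
    have hry := (rs_ne (right_ne_zero_of_mul hy3)).1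
    have h1 : x.1 = y.1 := uniq2 hpx hpy hrx hry (hx1.trans hy1.symm) hx2
    have h2 : x.2 = y.2 := by
      have h3 := hx1.trans hy1.symm
      rw [h1] at h3
      exact Nat.eq_of_mul_eq_mul_left hpy.pos h3
    exact Prod.ext h1 h2
  rw [h0]
  have h1 : ‖∑ x ∈ A.filter (fun x => prc X x.1 * rs P K s x.2 ≠ 0), prc X x.1 * rs P K s x.2‖ ^ 2 ≤
      ∑ x ∈ A.filter (fun x => prc X x.1 * rs P K s x.2 ≠ 0), ‖prc X x.1 * rs P K s x.2‖ ^ 2 := by
    rcases Finset.card_le_one_iff_subset_singleton.1 hcard with ⟨x, hx⟩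
    rcases Finset.subset_singleton_iff.1 hx with h | h
    · rw [h]; simp
    · rw [h]; simp
  refine h1.trans ?_
  refine (Finset.sum_le_sum_of_subset_of_nonneg ((Finset.filter_subset _ _).trans
    (Finset.filter_subset _ _)) fun x _ _ => sq_nonneg _).trans ?_
  refine Finset.sum_le_sum fun x _ => ?_
  rw [norm_mul, mul_pow]

/-- summation of a convolution of nonnegative functions -/
theorem conv_sum (M X N : ℕ) (α β : ℕ → ℝ) (hα : ∀ n, 0 ≤ α n) (hβ : ∀ n, 0 ≤ β n)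
    (h1 : ∀ n, α n ≠ 0 → 1 ≤ n ∧ n ≤ X) (h2 : ∀ n, β n ≠ 0 → 1 ≤ n ∧ n ≤ N) :
    ∑ n ∈ Icc 1 M, (∑ x ∈ n.divisorsAntidiagonal, α x.1 * β x.2) / (n : ℝ) ≤
      (∑ d ∈ Icc 1 X, α d / d) * ∑ m ∈ Icc 1 N, β m / m := by
  classical
  have e1 : ∀ n ∈ Icc 1 M, (∑ x ∈ n.divisorsAntidiagonal, α x.1 * β x.2) / (n : ℝ) ≤
      ∑ x ∈ Icc 1 X ×ˢ Icc 1 N, if x.1 * x.2 = n then (α x.1 / x.1) * (β x.2 / x.2) else 0 := by
    intro n hn
    rw [Finset.mem_Icc] at hn
    rw [Finset.sum_div, ← Finset.sum_filter]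
    have e2 : ∀ x ∈ n.divisorsAntidiagonal, α x.1 * β x.2 / (n : ℝ) = (α x.1 / x.1) * (β x.2 / x.2) := by
      intro x hx
      rw [Nat.mem_divisorsAntidiagonal] at hx
      rw [← hx.1]
      push_cast
      rw [div_mul_div_comm]
    rw [sum_congr rfl e2, ← Finset.sum_filter_ne_zero]
    refine Finset.sum_le_sum_of_subset_of_nonneg ?_ fun x _ _ => mul_nonneg
      (div_nonneg (hα _) (Nat.cast_nonneg _)) (div_nonneg (hβ _) (Nat.cast_nonneg _))
    intro x hx
    rw [Finset.mem_filter, Nat.mem_divisorsAntidiagonal] at hx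
    obtain ⟨⟨h3, h4⟩, h5⟩ := hx
    have h6 : α x.1 ≠ 0 := fun h => h5 (by rw [h]; simp)
    have h7 : β x.2 ≠ 0 := fun h => h5 (by rw [h]; simp)
    rw [Finset.mem_filter, Finset.mem_product, Finset.mem_Icc, Finset.mem_Icc]
    exact ⟨⟨h1 _ h6, h2 _ h7⟩, h3⟩
  refine (Finset.sum_le_sum e1).trans ?_
  have e3 : (∑ d ∈ Icc 1 X, α d / d) * ∑ m ∈ Icc 1 N, β m / m =
      ∑ x ∈ Icc 1 X ×ˢ Icc 1 N, (α x.1 / x.1) * (β x.2 / x.2) := by
    rw [Finset.sum_mul_sum, Finset.sum_product]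
  rw [Finset.sum_comm, e3]
  refine Finset.sum_le_sum fun x _ => ?_
  rw [Finset.sum_ite_eq]
  split
  · exact le_rfl
  · exact mul_nonneg (div_nonneg (hα _) (Nat.cast_nonneg _)) (div_nonneg (hβ _) (Nat.cast_nonneg _))

/-- the mean square of the other part -/
theorem N2_f2 {P : Finset ℕ} {K N X M : ℕ} {s : ℝ} (hN : ∀ n, rs P K s n ≠ 0 → n ≤ N) :
    N2 M (f2 P X (rs P K s)) ≤ (∑ p ∈ (Icc 1 X).filter Nat.Prime, (1 : ℝ) / p) * N2 N (rs P K s) := by
  have h1 := conv_sum M X N (fun n => ‖prc X n‖ ^ 2) (fun n => ‖rs P K s n‖ ^ 2) (fun n => sq_nonneg _)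
    (fun n => sq_nonneg _) (by
      intro n h
      have h2 : prc X n ≠ 0 := fun h' => h (by rw [h']; simp)
      exact ⟨(prc_ne h2).1.one_lt.le, (prc_ne h2).2⟩) (by
      intro n h
      have h2 : rs P K s n ≠ 0 := fun h' => h (by rw [h']; simp)
      exact ⟨Nat.one_le_iff_ne_zero.2 (rs_ne h2).1.1.ne_zero, hN n h2⟩)
  have h3 : ∑ d ∈ Icc 1 X, ‖prc X d‖ ^ 2 / (d : ℝ) = ∑ p ∈ (Icc 1 X).filter Nat.Prime, (1 : ℝ) / p := by
    rw [Finset.sum_filter]
    refine sum_congr rfl fun d hd => ?_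
    rw [Finset.mem_Icc] at hd
    rw [prc_norm]
    by_cases h : d.Prime
    · rw [if_pos h, if_pos ⟨h, hd.2⟩]
    · rw [if_neg h, if_neg fun h' => h h'.1, zero_div]
  rw [h3] at h1
  refine le_trans ?_ h1
  unfold N2
  refine Finset.sum_le_sum fun n _ => ?_
  exact div_le_div_of_nonneg_right (f2_sq n) (Nat.cast_nonneg _)

/-- the main part on squarefree numbers composed of the primes of `P` -/
theorem f1_sq {P : Finset ℕ} {K X : ℕ} {s : ℝ} (hP : ∀ p ∈ P, p.Prime) (hX : ∀ p ∈ P, p ≤ X) {n : ℕ}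
    (hn : Sq P n) :
    f1 P X (rs P K s) n = (om n : ℂ) * (if om n ≤ K + 1 then ((s ^ (om n - 1) : ℝ) : ℂ) else 0) := by
  classical
  have hn0 := hn.1.ne_zero
  -- the term of a prime divisor
  have hterm : ∀ p ∈ n.primeFactors, rs P K s (n / p) = if om n ≤ K + 1 then ((s ^ (om n - 1) : ℝ) : ℂ) else 0 := by
    intro p hp
    have hpp := Nat.prime_of_mem_primeFactors hp
    have hpd := Nat.dvd_of_mem_primeFactors hp
    have hpn : p * (n / p) = n := Nat.mul_div_cancel' hpd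
    have hsq : Squarefree (n / p) := hn.1.squarefree_of_dvd (Nat.div_dvd_of_dvd hpd)
    have hco : Nat.Coprime p (n / p) := by
      have h1 := hn.1
      rw [← hpn] at h1
      exact Nat.coprime_of_squarefree_mul h1
    have hnd : ¬ p ∣ n / p := fun h => by
      have := Nat.Coprime.eq_one_of_dvd hco h
      exact hpp.one_lt.ne' this
    have hpf : n.primeFactors = insert p (n / p).primeFactors := by
      conv_lhs => rw [← hpn]
      rw [Nat.primeFactors_mul hpp.ne_zero hsq.ne_zero, hpp.primeFactors]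
      rfl
    have hpnot : p ∉ (n / p).primeFactors := fun h => hnd (Nat.dvd_of_mem_primeFactors h)
    have hom : om n = om (n / p) + 1 := by
      unfold om
      rw [hpf, Finset.card_insert_of_notMem hpnot]
    have hSq : Sq P (n / p) := ⟨hsq, fun q hq => hn.2 (hpf ▸ Finset.mem_insert_of_mem hq)⟩
    unfold rs
    by_cases h : om n ≤ K + 1
    · rw [if_pos h, if_pos ⟨hSq, by omega⟩]
      congr 2
      omega
    · rw [if_neg h, if_neg fun h' => h (by omega)]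
  have h2 : f1 P X (rs P K s) n = ∑ p ∈ n.primeFactors, rs P K s (n / p) := by
    unfold f1
    rw [Finset.sum_filter]
    rw [Nat.sum_divisorsAntidiagonal (f := fun d m => if d ∈ P ∧ ¬ d ∣ m then prc X d * rs P K s m else 0)]
    symm
    have h3 : n.primeFactors ⊆ n.divisors := fun p hp =>
      Nat.mem_divisors.2 ⟨Nat.dvd_of_mem_primeFactors hp, hn0⟩
    refine (Finset.sum_subset_zero_on_sdiff h3 ?_ ?_)
    · intro d hd
      rw [Finset.mem_sdiff, Nat.mem_divisors, Nat.mem_primeFactors] at hd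
      rw [if_neg]
      rintro ⟨h4, -⟩
      exact hd.2 ⟨hP d h4, hd.1.1, hn0⟩
    · intro p hp
      have hpp := Nat.prime_of_mem_primeFactors hp
      have hpd := Nat.dvd_of_mem_primeFactors hp
      have hpn : p * (n / p) = n := Nat.mul_div_cancel' hpd
      have hco : Nat.Coprime p (n / p) := by
        have h1 := hn.1
        rw [← hpn] at h1
        exact Nat.coprime_of_squarefree_mul h1
      have hnd : ¬ p ∣ n / p := fun h => by
        have := Nat.Coprime.eq_one_of_dvd hco h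
        exact hpp.one_lt.ne' this
      rw [if_pos ⟨hn.2 hp, hnd⟩]
      unfold prc
      rw [if_pos ⟨hpp, hX p (hn.2 hp)⟩, one_mul]
  rw [h2, sum_congr rfl hterm, Finset.sum_const, nsmul_eq_mul]
  rfl

/-- the main part vanishes elsewhere -/
theorem f1_zero {P : Finset ℕ} {K X : ℕ} {s : ℝ} (hP : ∀ p ∈ P, p.Prime) {n : ℕ} (hn : ¬ Sq P n) :
    f1 P X (rs P K s) n = 0 := by
  classical
  unfold f1
  refine Finset.sum_eq_zero fun x hx => ?_
  rw [Finset.mem_filter, Nat.mem_divisorsAntidiagonal] at hx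
  obtain ⟨⟨h1, h2⟩, h3, h4⟩ := hx
  by_contra h5
  have h6 := (rs_ne (right_ne_zero_of_mul h5)).1
  apply hn
  have hp := hP _ h3
  have hco : Nat.Coprime x.1 x.2 := (Nat.Prime.coprime_iff_not_dvd hp).2 h4
  rw [← h1]
  refine ⟨(Nat.squarefree_mul hco).2 ⟨hp.squarefree, h6.1⟩, ?_⟩
  rw [Nat.primeFactors_mul hp.ne_zero h6.1.ne_zero, hp.primeFactors]
  exact Finset.union_subset (Finset.singleton_subset_iff.2 h3) h6.2

end Pool.Agent.Q241.UM
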