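import Pool.Agent.Q241.UM.RESc

/-!
Project UM5 (helper97), job UM5-RES: the finite inequality.
-/

set_option autoImplicit false

namespace Pool.Agent.Q241.UM

open Finset
open Pool.Agent.Q97.UM (N2 cv prc)

open Classical in
/-- the bound for the main part -/
noncomputable def gg (P : Finset ℕ) (μ a : ℝ) (n : ℕ) : ℝ :=
  if Sq P n then 2 * (μ ^ (2 * om n) * ((om n : ℝ) / μ - a) ^ 2 / n) else 0

theorem gg_nonneg (P : Finset ℕ) (μ a : ℝ) (n : ℕ) : 0 ≤ gg P μ a n := by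
  unfold gg
  split
  · have : 0 ≤ μ ^ (2 * om n) := by rw [pow_mul]; positivity
    positivity
  · exact le_rfl

theorem main_pt {P : Finset ℕ} (hP : ∀ p ∈ P, p.Prime) {K X : ℕ} {μ a σ : ℝ} (hσ : σ = 1 ∨ σ = -1)
    (hμ : 1 ≤ μ) (ha0 : 0 ≤ a) (ha : 10 * (μ * a) ≤ K) (hX : ∀ p ∈ P, p ≤ X) (n : ℕ) :
    ‖f1 P X (rs P K (σ * μ)) n - σ * a * rs P K (σ * μ) n‖ ^ 2 / n ≤ gg P μ a n := by
  have hμ0 : 0 < μ := by linarith
  have hσ2 : σ ^ 2 = 1 := by rcases hσ with rfl | rfl <;> norm_num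
  have hs : ∀ k : ℕ, ((σ * μ) ^ k) ^ 2 = μ ^ (2 * k) := by
    intro k
    rw [← pow_mul, mul_comm k 2, pow_mul, mul_pow, hσ2, one_mul, ← pow_mul]
  unfold gg
  by_cases hn : Sq P n
  · rw [if_pos hn, f1_sq hP hX hn]
    have key : ‖(om n : ℂ) * (if om n ≤ K + 1 then (((σ * μ) ^ (om n - 1) : ℝ) : ℂ) else 0) -
        σ * a * rs P K (σ * μ) n‖ ^ 2 ≤ 2 * (μ ^ (2 * om n) * ((om n : ℝ) / μ - a) ^ 2) := by
      rcases lt_trichotomy (om n) (K + 1) with h | h | h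
      · -- at most `K` prime factors
        rw [if_pos h.le]
        unfold rs
        rw [if_pos ⟨hn, by omega⟩]
        have e1 : (om n : ℂ) * (((σ * μ) ^ (om n - 1) : ℝ) : ℂ) - σ * a * (((σ * μ) ^ om n : ℝ) : ℂ) =
            (((om n : ℝ) * (σ * μ) ^ (om n - 1) - σ * a * (σ * μ) ^ om n : ℝ) : ℂ) := by
          push_cast
          ring
        rw [e1, Complex.norm_real, Real.norm_eq_abs, sq_abs]
        have e2 : ((om n : ℝ) * (σ * μ) ^ (om n - 1) - σ * a * (σ * μ) ^ om n) ^ 2 =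
            μ ^ (2 * om n) * ((om n : ℝ) / μ - a) ^ 2 := by
          rcases Nat.eq_zero_or_pos (om n) with h0 | h0
          · rw [h0]
            simp only [Nat.cast_zero, zero_mul, zero_sub, mul_zero, pow_zero, zero_div, mul_one, one_mul,
              neg_sq, mul_pow, hσ2]
          · obtain ⟨k, hk⟩ := Nat.exists_eq_add_of_le' h0
            rw [hk, Nat.add_sub_cancel]
            have e3 : ((k + 1 : ℕ) : ℝ) * (σ * μ) ^ k - σ * a * (σ * μ) ^ (k + 1) =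
                (σ * μ) ^ k * (((k + 1 : ℕ) : ℝ) - σ ^ 2 * (μ * a)) := by ring
            rw [e3, hσ2, mul_pow, hs, one_mul]
            have e4 : μ ^ (2 * (k + 1)) = μ ^ (2 * k) * μ ^ 2 := by ring
            rw [e4, mul_assoc]
            congr 1
            rw [← mul_pow]
            congr 1
            field_simp
        rw [e2]
        have : 0 ≤ μ ^ (2 * om n) * ((om n : ℝ) / μ - a) ^ 2 := by positivity
        linarith
      · -- exactly `K + 1` prime factors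
        rw [if_pos h.le]
        unfold rs
        rw [if_neg fun h' => by omega, mul_zero, sub_zero, h, Nat.add_sub_cancel, norm_mul, mul_pow,
          Complex.norm_real, Real.norm_eq_abs, sq_abs, hs]
        have e0 : ‖((K + 1 : ℕ) : ℂ)‖ = ((K + 1 : ℕ) : ℝ) := Complex.norm_natCast _
        rw [e0]
        have e4 : μ ^ (2 * (K + 1)) = μ ^ (2 * K) * μ ^ 2 := by ring
        have e5 : μ ^ (2 * (K + 1)) * (((K + 1 : ℕ) : ℝ) / μ - a) ^ 2 =
            μ ^ (2 * K) * (((K + 1 : ℕ) : ℝ) - μ * a) ^ 2 := by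
          rw [e4, mul_assoc]
          congr 1
          rw [← mul_pow]
          congr 1
          field_simp
        rw [e5]
        have hK1 : 10 * (μ * a) ≤ ((K + 1 : ℕ) : ℝ) := by push_cast; linarith
        have hma : 0 ≤ μ * a := mul_nonneg hμ0.le ha0
        have e6 : ((K + 1 : ℕ) : ℝ) ^ 2 ≤ 2 * (((K + 1 : ℕ) : ℝ) - μ * a) ^ 2 := by
          generalize ((K + 1 : ℕ) : ℝ) = y at hK1
          generalize μ * a = z at hK1 hma
          nlinarith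
        have e7 : 0 ≤ μ ^ (2 * K) := by positivity
        calc ((K + 1 : ℕ) : ℝ) ^ 2 * μ ^ (2 * K) = μ ^ (2 * K) * ((K + 1 : ℕ) : ℝ) ^ 2 := by ring
          _ ≤ μ ^ (2 * K) * (2 * (((K + 1 : ℕ) : ℝ) - μ * a) ^ 2) := mul_le_mul_of_nonneg_left e6 e7
          _ = _ := by ring
      · rw [if_neg (by omega)]
        unfold rs
        rw [if_neg fun h' => by omega]
        simp only [mul_zero, sub_zero, norm_zero]
        have : 0 ≤ μ ^ (2 * om n) * ((om n : ℝ) / μ - a) ^ 2 := by positivity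
        have h2 : (0 : ℝ) ^ 2 = 0 := by norm_num
        rw [h2]
        linarith
    calc _ ≤ 2 * (μ ^ (2 * om n) * ((om n : ℝ) / μ - a) ^ 2) / n :=
          div_le_div_of_nonneg_right key (Nat.cast_nonneg _)
      _ = _ := by ring
  · rw [if_neg hn, f1_zero hP hn]
    have : rs P K (σ * μ) n = 0 := by
      unfold rs
      rw [if_neg fun h => hn h.1]
    rw [this]
    simp

theorem sum_gg {P : Finset ℕ} (hP : ∀ p ∈ P, p.Prime) {μ a : ℝ} (hμ : 1 ≤ μ)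
    (ha : a = μ * ∑ p ∈ P, (1 : ℝ) / p) (M : ℕ) :
    ∑ n ∈ Icc 1 M, gg P μ a n ≤ 2 / μ ^ 2 * E2 (fun p => μ ^ 2 / p) P := by
  have hμ0 : 0 < μ := by linarith
  refine (transfer_le hP M (gg P μ a) (fun n h => ?_) (gg_nonneg P μ a)).trans (le_of_eq ?_)
  · by_contra h1
    exact h (if_neg h1)
  · unfold E2
    rw [mul_sum]
    refine sum_congr rfl fun S hS => ?_
    unfold gg
    rw [if_pos (Sq_prod hP hS), om_prod hP hS, wt_eq]
    have h1 : ∑ p ∈ P, μ ^ 2 / (p : ℝ) = μ * a := by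
      rw [ha, ← mul_assoc, mul_sum]
      exact sum_congr rfl fun p _ => by ring
    rw [h1]
    have h2 : ((∏ p ∈ S, p : ℕ) : ℝ) ≠ 0 := by
      rw [Nat.cast_ne_zero]
      exact Finset.prod_ne_zero_iff.2 fun p hp => (hP p (Finset.mem_powerset.1 hS hp)).ne_zero
    field_simp

/-- the finite inequality -/
theorem res_core {P : Finset ℕ} (hP : ∀ p ∈ P, p.Prime) {K N X : ℕ} {μ a σ : ℝ} (hσ : σ = 1 ∨ σ = -1)
    (hμ : 1 ≤ μ) (hS : ∑ p ∈ P, (1 : ℝ) / p ≤ 1) (ha : a = μ * ∑ p ∈ P, (1 : ℝ) / p)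
    (hK : 10 * μ ^ 2 ≤ K) (hx : ∀ p ∈ P, μ ^ 4 ≤ (p : ℝ))
    (hN : ∀ S ∈ P.powerset, S.card ≤ K → ∏ p ∈ S, p ≤ N) (hX : ∀ p ∈ P, p ≤ X) :
    N2 (X * N) (fun n => cv (prc X) (rs P K (σ * μ)) n - σ * a * rs P K (σ * μ) n) ≤
      (10 + 2 * ∑ p ∈ (Icc 1 X).filter Nat.Prime, (1 : ℝ) / p) * N2 N (rs P K (σ * μ)) := by
  have hμ0 : 0 < μ := by linarith
  have hσ2 : σ ^ 2 = 1 := by rcases hσ with rfl | rfl <;> norm_num
  have hS0 : 0 ≤ ∑ p ∈ P, (1 : ℝ) / p := Finset.sum_nonneg fun p _ => by positivity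
  have ha0 : 0 ≤ a := by rw [ha]; positivity
  have hm : ∑ p ∈ P, μ ^ 2 / (p : ℝ) = μ * a := by
    rw [ha, ← mul_assoc, mul_sum]
    exact sum_congr rfl fun p _ => by ring
  have hma : μ * a ≤ μ ^ 2 := by
    rw [ha, ← mul_assoc, ← sq]
    nlinarith [sq_nonneg μ]
  have haK : 10 * (μ * a) ≤ K := by linarith
  have hμ2 : 1 ≤ μ ^ 2 := one_le_pow₀ hμ
  have hK1 : 1 ≤ K := by
    have : (1 : ℝ) ≤ K := by linarith
    exact_mod_cast this
  obtain ⟨x, hxdef⟩ : ∃ x : ℕ → ℝ, x = fun p : ℕ => μ ^ 2 / (p : ℝ) := ⟨_, rfl⟩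
  have hx0 : ∀ p, 0 ≤ x p := fun p => by rw [hxdef]; positivity
  have hpp : ∀ p ∈ P, (0 : ℝ) < p := fun p hp => by exact_mod_cast (hP p hp).pos
  have hx1 : ∀ p ∈ P, x p ≤ 1 := by
    intro p hp
    rw [hxdef]
    show μ ^ 2 / (p : ℝ) ≤ 1
    rw [div_le_one (hpp p hp)]
    have h1 : μ ^ 2 ≤ μ ^ 4 := pow_le_pow_right₀ hμ (by norm_num)
    exact h1.trans (hx p hp)
  have hmx : ∑ p ∈ P, x p = μ * a := by rw [hxdef]; exact hm
  have hQ : ∑ p ∈ P, x p ^ 2 ≤ 1 := by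
    refine le_trans (Finset.sum_le_sum fun p hp => ?_) hS
    rw [hxdef]
    show (μ ^ 2 / (p : ℝ)) ^ 2 ≤ 1 / p
    have h1 := hpp p hp
    have h2 := hx p hp
    rw [div_pow, div_le_div_iff₀ (by positivity) h1]
    nlinarith
  have hQ0 : 0 ≤ ∑ p ∈ P, x p ^ 2 := Finset.sum_nonneg fun p _ => sq_nonneg _
  have hE0 := E0_pos hx0 P
  -- the mean square
  have hW : N2 N (rs P K (σ * μ)) = ∑ S ∈ P.powerset.filter (fun S => S.card ≤ K), wt x S := by
    rw [N2_rs hP K N (σ * μ) hN, hxdef, mul_pow, hσ2, one_mul]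
  have htr := trunc hx0 P K (by rw [hmx]; exact haK) hK1
  rw [← hW] at htr
  have hE2 : E2 x P ≤ (μ ^ 2 + 1) * E0 x P := by
    refine (E2_le hx0 P hx1).trans (mul_le_mul_of_nonneg_right ?_ hE0.le)
    rw [hmx]
    nlinarith
  -- the main part
  have hmain : N2 (X * N) (fun n => f1 P X (rs P K (σ * μ)) n - σ * a * rs P K (σ * μ) n) ≤
      5 * N2 N (rs P K (σ * μ)) := by
    unfold N2
    refine (Finset.sum_le_sum fun n _ => main_pt hP hσ hμ ha0 haK hX n).trans ?_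
    refine (sum_gg hP hμ ha _).trans ?_
    rw [← hxdef]
    have h1 : 2 / μ ^ 2 * E2 x P ≤ 2 / μ ^ 2 * ((μ ^ 2 + 1) * E0 x P) :=
      mul_le_mul_of_nonneg_left hE2 (by positivity)
    have h2 : 2 / μ ^ 2 * ((μ ^ 2 + 1) * E0 x P) = 2 * E0 x P + 2 / μ ^ 2 * E0 x P := by
      field_simp
    have h3 : 2 / μ ^ 2 ≤ 2 := by
      rw [div_le_iff₀ (by positivity)]
      linarith
    have h4 : 2 / μ ^ 2 * E0 x P ≤ 2 * E0 x P := mul_le_mul_of_nonneg_right h3 hE0.le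
    have h5 : N2 N (rs P K (σ * μ)) = ∑ n ∈ Icc 1 N, ‖rs P K (σ * μ) n‖ ^ 2 / (n : ℝ) := rfl
    rw [← h5]
    linarith
  have hoth : N2 (X * N) (f2 P X (rs P K (σ * μ))) ≤
      (∑ p ∈ (Icc 1 X).filter Nat.Prime, (1 : ℝ) / p) * N2 N (rs P K (σ * μ)) := by
    refine N2_f2 fun n h => ?_
    obtain ⟨⟨h3, h4⟩, h5⟩ := rs_ne h
    have h6 := hN n.primeFactors (Finset.mem_powerset.2 h4) h5
    rwa [Nat.prod_primeFactors_of_squarefree h3] at h6
  have hsplit : N2 (X * N) (fun n => cv (prc X) (rs P K (σ * μ)) n - σ * a * rs P K (σ * μ) n) ≤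
      2 * N2 (X * N) (fun n => f1 P X (rs P K (σ * μ)) n - σ * a * rs P K (σ * μ) n) +
        2 * N2 (X * N) (f2 P X (rs P K (σ * μ))) := by
    unfold N2
    rw [mul_sum, mul_sum, ← sum_add_distrib]
    refine Finset.sum_le_sum fun n _ => ?_
    show ‖cv (prc X) (rs P K (σ * μ)) n - σ * a * rs P K (σ * μ) n‖ ^ 2 / (n : ℝ) ≤ _
    rw [cv_split P]
    have h1 : ‖f1 P X (rs P K (σ * μ)) n + f2 P X (rs P K (σ * μ)) n - σ * a * rs P K (σ * μ) n‖ ^ 2 ≤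
        2 * ‖f1 P X (rs P K (σ * μ)) n - σ * a * rs P K (σ * μ) n‖ ^ 2 +
          2 * ‖f2 P X (rs P K (σ * μ)) n‖ ^ 2 := by
      have h2 : f1 P X (rs P K (σ * μ)) n + f2 P X (rs P K (σ * μ)) n - σ * a * rs P K (σ * μ) n =
          (f1 P X (rs P K (σ * μ)) n - σ * a * rs P K (σ * μ) n) + f2 P X (rs P K (σ * μ)) n := by ring
      rw [h2]
      have h3 := norm_add_le (f1 P X (rs P K (σ * μ)) n - σ * a * rs P K (σ * μ) n)
        (f2 P X (rs P K (σ * μ)) n)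
      have h4 := norm_nonneg ((f1 P X (rs P K (σ * μ)) n - σ * a * rs P K (σ * μ) n) +
        f2 P X (rs P K (σ * μ)) n)
      generalize ‖(f1 P X (rs P K (σ * μ)) n - σ * a * rs P K (σ * μ) n) +
        f2 P X (rs P K (σ * μ)) n‖ = u at *
      generalize ‖f1 P X (rs P K (σ * μ)) n - σ * a * rs P K (σ * μ) n‖ = v at *
      generalize ‖f2 P X (rs P K (σ * μ)) n‖ = w at *
      nlinarith [sq_nonneg (v - w)]
    calc _ ≤ (2 * ‖f1 P X (rs P K (σ * μ)) n - σ * a * rs P K (σ * μ) n‖ ^ 2 +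
          2 * ‖f2 P X (rs P K (σ * μ)) n‖ ^ 2) / (n : ℝ) := div_le_div_of_nonneg_right h1 (Nat.cast_nonneg _)
      _ = _ := by ring
  refine hsplit.trans ?_
  nlinarith

/-- the resonator is not zero -/
theorem one_le_N2 {P : Finset ℕ} {K N : ℕ} {s : ℝ} (hN : 1 ≤ N) : 1 ≤ N2 N (rs P K s) := by
  have h1 : rs P K s 1 = 1 := by
    unfold rs
    rw [if_pos]
    · simp [om]
    · exact ⟨⟨squarefree_one, by simp⟩, by simp [om]⟩
  unfold N2
  have h2 := Finset.single_le_sum (f := fun n : ℕ => ‖rs P K s n‖ ^ 2 / (n : ℝ)) (s := Icc 1 N)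
    (fun n _ => by positivity) (Finset.mem_Icc.2 ⟨le_rfl, hN⟩)
  have h3 : ‖rs P K s 1‖ ^ 2 / ((1 : ℕ) : ℝ) = 1 := by
    rw [h1]
    simp
  exact h3.symm.le.trans h2

end Pool.Agent.Q241.UM
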